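import Pool.Agent.Helper29.UG.Props

/-!
# MP_b55b7c_an: packet AbSys
-/

open scoped ENNReal NNReal InnerProductSpace ComplexOrder
open Filter Topology

attribute [-instance] CStarMatrix.instAlgebra CStarMatrix.instModule CStarMatrix.instSMul
  CStarMatrix.instMulAction CStarMatrix.instDistribMulAction

noncomputable section
namespace RC
universe u

namespace AbSys13

section
variable {H : Type u} [NormedAddCommGroup H] [InnerProductSpace ℂ H] [CompleteSpace H]

theorem ssz {x : H →L[ℂ] H} (h : star x * x = 0) : x = 0 := by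
  have h1 : ‖star x * x‖ = ‖x‖ * ‖x‖ := CStarRing.norm_star_mul_self
  rw [h, norm_zero] at h1
  exact norm_eq_zero.1 (mul_self_eq_zero.1 h1.symm)

/-- the trace of `x* x` -/
theorem tr_star_mul (ξ : H) (x : H →L[ℂ] H) : tr ξ (star x * x) = ‖x ξ‖ ^ 2 := by
  unfold tr
  have : (star x * x) ξ = (ContinuousLinearMap.adjoint x) (x ξ) := rfl
  rw [this, ContinuousLinearMap.adjoint_inner_right, inner_self_eq_norm_sq_to_K]
  norm_cast

theorem tr_sub (ξ : H) (x y : H →L[ℂ] H) : tr ξ (x - y) = tr ξ x - tr ξ y := by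
  unfold tr
  rw [ContinuousLinearMap.sub_apply, inner_sub_right, Complex.sub_re]

theorem tr_sum (ξ : H) {k : ℕ} (v : Fin k → (H →L[ℂ] H)) :
    tr ξ (∑ i, v i) = ∑ i, tr ξ (v i) := by
  unfold tr
  rw [ContinuousLinearMap.sum_apply, inner_sum, Complex.re_sum]

/-- a system of partial isometries with initial projection `f` and orthogonal ranges -/
def Sys (S : Set (H →L[ℂ] H)) (f : H →L[ℂ] H) (k : ℕ) : Prop :=
  ∃ v : Fin k → (H →L[ℂ] H), (∀ i, v i ∈ S.centralizer) ∧
    ∀ i l, star (v i) * v l = if i = l then f else 0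

variable {S : Set (H →L[ℂ] H)} {f : H →L[ℂ] H} {k : ℕ} {v : Fin k → (H →L[ℂ] H)}

theorem mul_f (hf : IsStarProjection f)
    (hv : ∀ i l, star (v i) * v l = if i = l then f else 0) (i : Fin k) : v i * f = v i := by
  have hff : f * f = f := hf.isIdempotentElem.eq
  have hfs : star f = f := hf.isSelfAdjoint.star_eq
  have hii : star (v i) * v i = f := by rw [hv i i, if_pos rfl]
  have h : star (v i * f - v i) * (v i * f - v i) = 0 := by
    rw [star_sub, star_mul, hfs]
    have e : (f * star (v i) - star (v i)) * (v i * f - v i) =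
        f * (star (v i) * v i) * f - f * (star (v i) * v i) - (star (v i) * v i) * f +
          star (v i) * v i := by
      simp only [sub_mul, mul_sub, mul_assoc]
      abel
    rw [e, hii, hff, hff]
    abel
  exact sub_eq_zero.1 (ssz h)

theorem f_mul (hf : IsStarProjection f)
    (hv : ∀ i l, star (v i) * v l = if i = l then f else 0) (i : Fin k) :
    f * star (v i) = star (v i) := by
  have h := congrArg star (mul_f hf hv i)
  rwa [star_mul, hf.isSelfAdjoint.star_eq] at h

/-- `v i * (sum of the ranges)` -/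
theorem star_mul_sum (hf : IsStarProjection f)
    (hv : ∀ i l, star (v i) * v l = if i = l then f else 0) (i : Fin k) :
    star (v i) * (∑ l, v l * star (v l)) = star (v i) := by
  rw [Finset.mul_sum]
  have : ∀ l, star (v i) * (v l * star (v l)) = if i = l then star (v i) else 0 := by
    intro l
    rw [← mul_assoc, hv i l]
    split_ifs with h
    · rw [← h]; exact f_mul hf hv i
    · rw [zero_mul]
  rw [Finset.sum_congr rfl fun l _ => this l, Finset.sum_ite_eq, if_pos (Finset.mem_univ i)]

theorem sum_sq (hf : IsStarProjection f)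
    (hv : ∀ i l, star (v i) * v l = if i = l then f else 0) :
    (∑ l, v l * star (v l)) * (∑ l, v l * star (v l)) = ∑ l, v l * star (v l) := by
  rw [Finset.sum_mul]
  exact Finset.sum_congr rfl fun i _ => by rw [mul_assoc, star_mul_sum hf hv i]

theorem sum_star : star (∑ l, v l * star (v l)) = ∑ l, v l * star (v l) := by
  rw [star_sum]
  exact Finset.sum_congr rfl fun i _ => by rw [star_mul, star_star]

/-- the length of a system is bounded -/
theorem bound {ξ : H} (hFV : FV S ξ) (hfN : f ∈ S.centralizer) (hf : IsStarProjection f)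
    (hvN : ∀ i, v i ∈ S.centralizer)
    (hv : ∀ i l, star (v i) * v l = if i = l then f else 0) :
    (k : ℝ) * ‖f ξ‖ ^ 2 ≤ 1 := by
  have hst : ∀ x ∈ S.centralizer, star x ∈ S.centralizer := by
    intro x hx
    rw [Set.mem_centralizer_iff] at *
    intro m hm
    have := congrArg star (hx (star m) (hFV.star m hm))
    rw [star_mul, star_mul, star_star] at this
    exact this.symm
  have hfs : star f * f = f := by
    rw [hf.isSelfAdjoint.star_eq]; exact hf.isIdempotentElem.eq
  -- the trace of the ranges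
  have h1 : ∀ i, tr ξ (v i * star (v i)) = ‖f ξ‖ ^ 2 := by
    intro i
    have h2 : tr ξ (v i * star (v i)) = tr ξ (star (v i) * v i) := by
      unfold tr
      have := hFV.trace (v i) (hvN i) (star (v i)) (hst _ (hvN i))
      change (⟪ξ, v i ((star (v i)) ξ)⟫_ℂ).re = (⟪ξ, (star (v i)) (v i ξ)⟫_ℂ).re
      rw [this]
    rw [h2, hv i i, if_pos rfl, ← tr_star_mul, hfs]
  have h2 : tr ξ (∑ i, v i * star (v i)) = k * ‖f ξ‖ ^ 2 := by
    rw [tr_sum, Finset.sum_congr rfl fun i _ => h1 i, Finset.sum_const, Finset.card_univ,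
      Fintype.card_fin, nsmul_eq_mul]
  set P : H →L[ℂ] H := 1 - ∑ i, v i * star (v i) with hP
  have h3 : star P * P = P := by
    rw [hP, star_sub, star_one, sum_star, sub_mul, one_mul, mul_sub, mul_one, sum_sq hf hv,
      sub_self, sub_zero]
  have h4 : 0 ≤ tr ξ P := by
    rw [← h3, tr_star_mul]
    positivity
  rw [hP, tr_sub, h2] at h4
  have h5 : tr ξ (1 : H →L[ℂ] H) = 1 := by
    have : (1 : H →L[ℂ] H) = star 1 * 1 := by simp
    rw [this, tr_star_mul]
    simp [hFV.norm]
  rw [h5] at h4
  linarith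

/-- a maximal number -/
theorem exists_max (P : ℕ → Prop) (h0 : P 0) (M : ℕ) (hM : ¬ P M) : ∃ k, P k ∧ ¬ P (k + 1) := by
  by_contra h
  push Not at h
  have : ∀ n, P n := by
    intro n
    induction n with
    | zero => exact h0
    | succ n ih => exact h n ih
  exact hM (this M)

end

theorem abSys (hE : ExhP.{u}) (hC : CsupP.{u}) (hA : AbSubP.{u}) : AbSysP.{u} := by
  intro H _ _ _ S ξ hFV f hfN hf hf0 hab
  have hsub : ∀ x ∈ S.centralizer, ∀ y ∈ S.centralizer, x - y ∈ S.centralizer := by
    intro x hx y hy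
    rw [Set.mem_centralizer_iff] at *
    intro m hm
    rw [mul_sub, sub_mul, hx m hm, hy m hm]
  have hmul : ∀ x ∈ S.centralizer, ∀ y ∈ S.centralizer, x * y ∈ S.centralizer :=
    fun x hx y hy => Set.mul_mem_centralizer hx hy
  have hst : ∀ x ∈ S.centralizer, star x ∈ S.centralizer := by
    intro x hx
    rw [Set.mem_centralizer_iff] at *
    intro m hm
    have := congrArg star (hx (star m) (hFV.star m hm))
    rw [star_mul, star_mul, star_star] at this
    exact this.symm
  have hone : (1 : H →L[ℂ] H) ∈ S.centralizer := Set.one_mem_centralizer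
  have hsum : ∀ {k : ℕ} (w : Fin k → (H →L[ℂ] H)), (∀ i, w i ∈ S.centralizer) →
      ∑ i, w i ∈ S.centralizer := by
    intro k w hw
    rw [Set.mem_centralizer_iff]
    intro m hm
    rw [Finset.mul_sum, Finset.sum_mul]
    exact Finset.sum_congr rfl fun i _ => (Set.mem_centralizer_iff.1 (hw i)) m hm
  have hff : f * f = f := hf.isIdempotentElem.eq
  -- the norm of `f ξ` is positive
  have hpos : 0 < ‖f ξ‖ ^ 2 := by
    have : f ξ ≠ 0 := fun h => hf0 (hFV.sep f hfN h)
    positivity
  -- a maximal system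
  obtain ⟨k, ⟨v, hvN, hv⟩, hmax⟩ := exists_max (Sys S f) ⟨Fin.elim0, fun i => i.elim0,
    fun i => i.elim0⟩ (⌊1 / ‖f ξ‖ ^ 2⌋₊ + 1) (by
      rintro ⟨v, hvN, hv⟩
      have h1 := bound hFV hfN hf hvN hv
      have h2 := Nat.lt_floor_add_one (1 / ‖f ξ‖ ^ 2)
      rw [div_lt_iff₀ hpos] at h2
      push_cast at h1
      linarith)
  obtain ⟨z0, hz0, hz0f, -⟩ := hC H S hFV.star f hfN hf
  have hz0N := hz0.1
  have hz0s : star z0 = z0 := hz0.2.1.isSelfAdjoint.star_eq
  have hz0z0 : z0 * z0 = z0 := hz0.2.1.isIdempotentElem.eq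
  -- `z0 v i = v i`
  have hz0v : ∀ i, z0 * v i = v i := by
    intro i
    rw [hz0.2.2 (v i) (hvN i)]
    conv_lhs => rw [← mul_f hf hv i]
    rw [mul_assoc, ← hz0.2.2 f hfN, hz0f, mul_f hf hv i]
  have hvz0 : ∀ i, star (v i) * z0 = star (v i) := by
    intro i
    have h := congrArg star (hz0v i)
    rwa [star_mul, hz0s] at h
  set Q : H →L[ℂ] H := ∑ l, v l * star (v l) with hQ
  have hQN : Q ∈ S.centralizer := hsum _ fun i => hmul _ (hvN i) _ (hst _ (hvN i))
  have hQQ : Q * Q = Q := sum_sq hf hv
  have hQs : star Q = Q := sum_star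
  have hz0Q : z0 * Q = Q := by
    rw [hQ, Finset.mul_sum]
    exact Finset.sum_congr rfl fun i _ => by rw [← mul_assoc, hz0v]
  have hQz0 : Q * z0 = Q := by
    have h := congrArg star hz0Q
    rwa [star_mul, hQs, hz0s] at h
  set q : H →L[ℂ] H := z0 - Q with hq
  have hqN : q ∈ S.centralizer := hsub _ hz0N _ hQN
  have hqp : IsStarProjection q := by
    constructor
    · change q * q = q
      rw [hq, sub_mul, mul_sub, mul_sub, hz0z0, hz0Q, hQz0, hQQ]
      abel
    · change star q = q
      rw [hq, star_sub, hz0s, hQs]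
  have hvq : ∀ i, star (v i) * q = 0 := by
    intro i
    rw [hq, mul_sub, hvz0, star_mul_sum hf hv i, sub_self]
  obtain ⟨w, hwN, hwp, hqw, hwf, hw⟩ := hE H S ξ hFV f hfN q hqN hf hqp
  -- `w* w = f` is impossible
  have hne : star w * w ≠ f := by
    intro hwf'
    apply hmax
    have h1 : ∀ i, star (v i) * w = 0 := by
      intro i
      rw [← hqw, ← mul_assoc, hvq, zero_mul]
    have h2 : ∀ i, star w * v i = 0 := by
      intro i
      have h := congrArg star (h1 i)
      rwa [star_mul, star_star, star_zero] at h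
    refine ⟨Fin.snoc v w, ?_, ?_⟩
    · intro i
      refine Fin.lastCases ?_ (fun j => ?_) i
      · rw [Fin.snoc_last]; exact hwN
      · rw [Fin.snoc_castSucc]; exact hvN j
    · intro i l
      refine Fin.lastCases ?_ (fun j => ?_) i
      · refine Fin.lastCases ?_ (fun m => ?_) l
        · rw [Fin.snoc_last, if_pos rfl]; exact hwf'
        · rw [Fin.snoc_last, Fin.snoc_castSucc, h2, if_neg (Fin.castSucc_lt_last m).ne']
      · refine Fin.lastCases ?_ (fun m => ?_) l
        · rw [Fin.snoc_last, Fin.snoc_castSucc, h1, if_neg (Fin.castSucc_lt_last j).ne]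
        · rw [Fin.snoc_castSucc, Fin.snoc_castSucc, hv j m]
          by_cases h : j = m
          · rw [if_pos h, if_pos (by rw [h])]
          · rw [if_neg h, if_neg (fun h' => h (Fin.castSucc_injective _ h'))]
  -- the defect
  set h : H →L[ℂ] H := f - star w * w with hh
  have hh0 : h ≠ 0 := fun h0 => hne (sub_eq_zero.1 h0).symm
  have hhN : h ∈ S.centralizer := hsub _ hfN _ (hmul _ (hst _ hwN) _ hwN)
  have hww : star w * w * (star w * w) = star w * w := hwp.isIdempotentElem.eq
  have hwwf : star w * w * f = star w * w := by rw [mul_assoc, hwf]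
  have hfww : f * (star w * w) = star w * w := by
    have e := congrArg star hwwf
    rw [star_mul, star_mul, star_star, hf.isSelfAdjoint.star_eq] at e
    exact e
  have hhp : IsStarProjection h := by
    constructor
    · change h * h = h
      rw [hh, sub_mul, mul_sub, mul_sub, hff, hfww, hwwf, hww]
      abel
    · change star h = h
      rw [hh, star_sub, star_mul, star_star, hf.isSelfAdjoint.star_eq]
  have hfh : f * h = h := by
    rw [hh, mul_sub, hff, hfww]
  obtain ⟨c, hc, hhc, hcz⟩ := hA H S hFV.star f hfN hf hab h hhN hhp hfh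
  have hcN := hc.1
  have hcs : star c = c := hc.2.1.isSelfAdjoint.star_eq
  have hcc : c * c = c := hc.2.1.isIdempotentElem.eq
  have hcom := hc.2.2
  -- `(q - w w*) c = 0`
  have e1 : (q - w * star w) * c = 0 :=
    hcz _ (hsub _ hqN _ (hmul _ hwN _ (hst _ hwN))) hw
  -- `z0 c = c`
  have e2 : z0 * c = c := by
    have h1 : (1 - z0) * c = 0 := by
      refine hcz _ (hsub _ hone _ hz0N) fun x hx => ?_
      have h2 : z0 * x * h = x * h := by
        rw [hz0.2.2 x hx, mul_assoc, ← hfh, ← mul_assoc z0, hz0f]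
      rw [sub_mul, one_mul, sub_mul, h2, sub_self]
    rw [sub_mul, one_mul, sub_eq_zero] at h1
    exact h1.symm
  -- `w c = 0`
  have e3 : star w * w * c = 0 := by
    have h1 : star w * w = f - h := by rw [hh]; abel
    rw [h1, sub_mul, hhc, mul_assoc, hcc, sub_self]
  have e4 : w * c = 0 := by
    apply ssz
    rw [star_mul, hcs, mul_assoc, ← mul_assoc (star w), e3, mul_zero]
  have e5 : w * star w * c = 0 := by
    rw [mul_assoc, ← hcom (star w) (hst _ hwN), ← mul_assoc, e4, zero_mul]
  have e6 : Q * c = c := by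
    rw [sub_mul, e5, sub_zero, hq, sub_mul, e2, sub_eq_zero] at e1
    exact e1.symm
  refine ⟨k, v, c, hvN, hc, ?_, hv, e6⟩
  rw [← hhc]
  exact hh0

end AbSys13

end RC
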